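import Mathlib

universe u

open Filter Topology
open scoped ComplexOrder

namespace Pool.Agent.Helper509.RP

/-! PROOF IN WORDS.
Take a dense sequence a_j of A and let g (2j) = real part of a_j, g (2j+1) = imaginary part
(realPart a_j, imaginaryPart a_j, selfadjoint; a = realPart a + I • imaginaryPart a). The algebra
generated contains all a_j.
-/

theorem exists_gen {A : Type u} [CStarAlgebra A] [TopologicalSpace.SeparableSpace A] :
    ∃ g : ℕ → A, (∀ i, IsSelfAdjoint (g i)) ∧
      closure (Algebra.adjoin ℂ (Set.range g) : Set A) = Set.univ := by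
  have : Nonempty A := ⟨0⟩
  let a : ℕ → A := TopologicalSpace.denseSeq A
  let g : ℕ → A := fun n => if n % 2 = 0 then ((realPart (a (n / 2)) : selfAdjoint A) : A)
    else ((imaginaryPart (a (n / 2)) : selfAdjoint A) : A)
  refine ⟨g, fun i => ?_, ?_⟩
  · by_cases h : i % 2 = 0
    · have : g i = ((realPart (a (i / 2)) : selfAdjoint A) : A) := if_pos h
      rw [this]
      exact (realPart (a (i / 2))).2
    · have : g i = ((imaginaryPart (a (i / 2)) : selfAdjoint A) : A) := if_neg h
      rw [this]
      exact (imaginaryPart (a (i / 2))).2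
  · have hd : DenseRange a := TopologicalSpace.denseRange_denseSeq A
    have hsub : Set.range a ⊆ (Algebra.adjoin ℂ (Set.range g) : Set A) := by
      rintro _ ⟨n, rfl⟩
      have h0 : g (2 * n) = ((realPart (a n) : selfAdjoint A) : A) := by
        have h1 : (2 * n) % 2 = 0 := by omega
        have h2 : (2 * n) / 2 = n := by omega
        have : g (2 * n) = ((realPart (a ((2 * n) / 2)) : selfAdjoint A) : A) := if_pos h1
        rw [this, h2]
      have h1 : g (2 * n + 1) = ((imaginaryPart (a n) : selfAdjoint A) : A) := by
        have h1 : ¬ (2 * n + 1) % 2 = 0 := by omega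
        have h2 : (2 * n + 1) / 2 = n := by omega
        have : g (2 * n + 1) = ((imaginaryPart (a ((2 * n + 1) / 2)) : selfAdjoint A) : A) :=
          if_neg h1
        rw [this, h2]
      have h2 := realPart_add_I_smul_imaginaryPart (a n)
      rw [← h0, ← h1] at h2
      rw [← h2]
      have h3 : g (2 * n) ∈ Algebra.adjoin ℂ (Set.range g) :=
        Algebra.subset_adjoin (Set.mem_range_self _)
      have h4 : g (2 * n + 1) ∈ Algebra.adjoin ℂ (Set.range g) :=
        Algebra.subset_adjoin (Set.mem_range_self _)
      exact Subalgebra.add_mem _ h3 (Subalgebra.smul_mem _ h4 _)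
    exact (hd.mono hsub).closure_eq

end Pool.Agent.Helper509.RP
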