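import Mathlib

universe u

open Filter Topology
open scoped ComplexOrder

namespace Pool.Agent.Helper509.RP

theorem dsum {A : Type u} [CStarAlgebra A] {ι : Type} (G : ι → Type u)
    [∀ i, NormedAddCommGroup (G i)] [∀ i, InnerProductSpace ℂ (G i)] [∀ i, CompleteSpace (G i)]
    (π : ∀ i, A →⋆ₐ[ℂ] (G i →L[ℂ] G i)) :
    ∃ Φ : A →⋆ₐ[ℂ] (lp G 2 →L[ℂ] lp G 2), ∀ a x i, Φ a x i = π i a (x i) := by
  classical
  have hle : ∀ i a, ‖π i a‖ ≤ ‖a‖ := fun i a => NonUnitalStarAlgHom.norm_apply_le (π i) a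
  have hle2 : ∀ (a : A) (x : lp G 2) (i : ι),
      ‖π i a (x i)‖ ≤ ‖(((‖a‖ : ℝ) : ℂ) • x) i‖ := by
    intro a x i
    rw [lp.coeFn_smul, Pi.smul_apply, norm_smul]
    have h1 : ‖((‖a‖ : ℝ) : ℂ)‖ = ‖a‖ := by simp
    rw [h1]
    exact (ContinuousLinearMap.le_opNorm _ _).trans
      (mul_le_mul_of_nonneg_right (hle i a) (norm_nonneg _))
  have hmem : ∀ (a : A) (x : lp G 2), Memℓp (fun i => π i a (x i)) 2 := fun a x =>
    Memℓp.mono' (lp.memℓp (((‖a‖ : ℝ) : ℂ) • x)) (hle2 a x)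
  let T0 : A → (lp G 2 →ₗ[ℂ] lp G 2) := fun a =>
    { toFun := fun x => ⟨fun i => π i a (x i), hmem a x⟩
      map_add' := by
        intro x y
        apply lp.ext
        funext i
        change π i a ((x + y : lp G 2) i) = π i a (x i) + π i a (y i)
        rw [lp.coeFn_add, Pi.add_apply, map_add]
      map_smul' := by
        intro c x
        apply lp.ext
        funext i
        change π i a ((c • x : lp G 2) i) = c • π i a (x i)
        rw [lp.coeFn_smul, Pi.smul_apply, map_smul] }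
  have hT0 : ∀ a x, ‖T0 a x‖ ≤ ‖a‖ * ‖x‖ := by
    intro a x
    have h1 : ‖T0 a x‖ ≤ ‖(((‖a‖ : ℝ) : ℂ) • x)‖ :=
      lp.norm_mono (by norm_num) (hle2 a x)
    rw [norm_smul] at h1
    simpa using h1
  let T : A → (lp G 2 →L[ℂ] lp G 2) := fun a => (T0 a).mkContinuous ‖a‖ (hT0 a)
  have hT : ∀ a x i, T a x i = π i a (x i) := fun a x i => rfl
  refine ⟨{ toFun := T, map_one' := ?_, map_mul' := ?_, map_zero' := ?_, map_add' := ?_,
            commutes' := ?_, map_star' := ?_ }, hT⟩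
  · ext x i
    rw [hT, map_one]
    rfl
  · intro a b
    ext x i
    rw [hT, map_mul]
    rfl
  · ext x i
    rw [hT, map_zero]
    rfl
  · intro a b
    ext x i
    rw [hT, map_add]
    rfl
  · intro r
    ext x i
    rw [hT, AlgHomClass.commutes]
    rfl
  · intro a
    change T (star a) = star (T a)
    rw [ContinuousLinearMap.star_eq_adjoint]
    rw [ContinuousLinearMap.eq_adjoint_iff]
    intro x y
    rw [lp.inner_eq_tsum, lp.inner_eq_tsum]
    congr 1
    funext i
    rw [hT, hT, map_star, ContinuousLinearMap.star_eq_adjoint,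
      ContinuousLinearMap.adjoint_inner_left]

end Pool.Agent.Helper509.RP
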