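import Mathlib

universe u

open Filter Topology
open scoped ComplexOrder

namespace Pool.Agent.Helper509.RP

/-! PROOF IN WORDS.
The finitely supported sequences with entries in countable dense sets of the G i are countable and
dense: x = sum_i lp.single 2 i (x i) (lp.hasSum_single). Equivalently: lp G 2 is the closure of the
union over finite sets s of the ranges of the continuous maps (G i)_(i in s) → lp G 2; or: the
closed span of the countable union of the separable subspaces lp.single 2 i (G i) is everything
(TopologicalSpace.IsSeparable.span, IsSeparable.closure, isSeparable_univ_iff).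
-/

theorem sep_lp {ι : Type} [Countable ι] (G : ι → Type u)
    [∀ i, NormedAddCommGroup (G i)] [∀ i, InnerProductSpace ℂ (G i)]
    [∀ i, TopologicalSpace.SeparableSpace (G i)] :
    TopologicalSpace.SeparableSpace (lp G 2) := by
  classical
  rw [← TopologicalSpace.isSeparable_univ_iff]
  set T : Set (lp G 2) := ⋃ i, Set.range (fun a : G i => lp.single 2 i a) with hT
  have hTs : TopologicalSpace.IsSeparable T := by
    apply TopologicalSpace.IsSeparable.iUnion
    intro i
    apply TopologicalSpace.isSeparable_range
    have h1 : Isometry (fun a : G i => lp.single (E := G) 2 i a) := by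
      apply Isometry.of_dist_eq
      intro x y
      rw [dist_eq_norm, dist_eq_norm, ← lp.single_sub, lp.norm_single (by norm_num)]
    exact h1.continuous
  have h2 : TopologicalSpace.IsSeparable (closure (Submodule.span ℂ T : Set (lp G 2))) :=
    (hTs.span (R := ℂ)).closure
  refine h2.mono ?_
  intro x _
  have h3 := lp.hasSum_single (E := G) (p := 2) (by norm_num) x
  refine mem_closure_of_tendsto h3 (Filter.Eventually.of_forall fun s => ?_)
  apply Submodule.sum_mem
  intro i _
  apply Submodule.subset_span
  rw [hT, Set.mem_iUnion]
  exact ⟨i, _, rfl⟩

end Pool.Agent.Helper509.RP
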