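import Mathlib

universe u

open Filter Topology
open scoped ComplexOrder

namespace Pool.Agent.Helper509.RP

/-- the index map -/
def rp5e {ι : Type} (i : ℕ) (p : ℕ × ι) : ℕ × ι := (Nat.pair i p.1, p.2)

theorem rp5e_inj {ι : Type} (i : ℕ) : Function.Injective (rp5e (ι := ι) i) := by
  rintro ⟨m, k⟩ ⟨m', k'⟩ h
  unfold rp5e at h
  simp only [Prod.mk.injEq, Nat.pair_eq_pair, true_and] at h
  exact Prod.ext h.1 h.2

/-- the shifted family -/
noncomputable def rp5f {ι : Type} {G : ι → Type u} [∀ i, NormedAddCommGroup (G i)] (i : ℕ)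
    (x : ∀ p : ℕ × ι, G p.2) (p : ℕ × ι) : G p.2 :=
  if (Nat.unpair p.1).1 = i then x ((Nat.unpair p.1).2, p.2) else 0

theorem rp5f_e {ι : Type} {G : ι → Type u} [∀ i, NormedAddCommGroup (G i)] (i : ℕ)
    (x : ∀ p : ℕ × ι, G p.2) (m : ℕ) (k : ι) : rp5f i x (Nat.pair i m, k) = x (m, k) := by
  unfold rp5f
  have h1 : (Nat.unpair (Nat.pair i m)).1 = i := by rw [Nat.unpair_pair]
  have h2 : (Nat.unpair (Nat.pair i m)).2 = m := by rw [Nat.unpair_pair]
  rw [if_pos h1]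
  show x ((Nat.unpair (Nat.pair i m)).2, k) = x (m, k)
  rw [h2]

theorem rp5f_ne {ι : Type} {G : ι → Type u} [∀ i, NormedAddCommGroup (G i)] (i j : ℕ)
    (x : ∀ p : ℕ × ι, G p.2) (m : ℕ) (k : ι) (h : i ≠ j) : rp5f i x (Nat.pair j m, k) = 0 := by
  unfold rp5f
  simp only [Nat.unpair_pair]
  rw [if_neg (fun h' => h h'.symm)]

theorem rp5_range {ι : Type} (i : ℕ) (p : ℕ × ι) (h : p ∉ Set.range (rp5e (ι := ι) i)) :
    (Nat.unpair p.1).1 ≠ i := by
  intro hi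
  apply h
  refine ⟨((Nat.unpair p.1).2, p.2), ?_⟩
  unfold rp5e
  simp only
  rw [← hi, Nat.pair_unpair]

theorem rp5f_mem {ι : Type} {G : ι → Type u} [∀ i, NormedAddCommGroup (G i)] (i : ℕ)
    (x : lp (fun p : ℕ × ι => G p.2) 2) : Memℓp (rp5f i (x : ∀ p : ℕ × ι, G p.2)) 2 := by
  apply memℓp_gen
  have h1 : Summable fun p : ℕ × ι => ‖(x : ∀ p : ℕ × ι, G p.2) p‖ ^ (2 : ENNReal).toReal :=
    (lp.memℓp x).summable (by norm_num)
  rw [← (rp5e_inj (ι := ι) i).summable_iff]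
  · refine h1.congr ?_
    rintro ⟨m, k⟩
    show _ = ‖rp5f i (x : ∀ p : ℕ × ι, G p.2) (Nat.pair i m, k)‖ ^ (2 : ENNReal).toReal
    rw [rp5f_e]
  · intro p hp
    unfold rp5f
    rw [if_neg (rp5_range i p hp)]
    simp

/-- the linear map -/
noncomputable def rp5l {ι : Type} (G : ι → Type u)
    [∀ i, NormedAddCommGroup (G i)] [∀ i, InnerProductSpace ℂ (G i)] (i : ℕ) :
    lp (fun p : ℕ × ι => G p.2) 2 →ₗ[ℂ] lp (fun p : ℕ × ι => G p.2) 2 where
  toFun x := ⟨rp5f i (x : ∀ p : ℕ × ι, G p.2), rp5f_mem i x⟩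
  map_add' x y := by
    ext p
    show rp5f i ((x + y : lp (fun p : ℕ × ι => G p.2) 2) : ∀ p : ℕ × ι, G p.2) p =
      rp5f i (x : ∀ p : ℕ × ι, G p.2) p + rp5f i (y : ∀ p : ℕ × ι, G p.2) p
    unfold rp5f
    split_ifs
    · rfl
    · simp
  map_smul' c x := by
    ext p
    show rp5f i ((c • x : lp (fun p : ℕ × ι => G p.2) 2) : ∀ p : ℕ × ι, G p.2) p =
      c • rp5f i (x : ∀ p : ℕ × ι, G p.2) p
    unfold rp5f
    split_ifs
    · rfl
    · simp

theorem rp5l_apply {ι : Type} (G : ι → Type u)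
    [∀ i, NormedAddCommGroup (G i)] [∀ i, InnerProductSpace ℂ (G i)] (i : ℕ)
    (x : lp (fun p : ℕ × ι => G p.2) 2) (p : ℕ × ι) :
    (rp5l G i x : ∀ p : ℕ × ι, G p.2) p = rp5f i (x : ∀ p : ℕ × ι, G p.2) p := rfl

theorem rp5l_inner {ι : Type} (G : ι → Type u)
    [∀ i, NormedAddCommGroup (G i)] [∀ i, InnerProductSpace ℂ (G i)] (i j : ℕ)
    (x y : lp (fun p : ℕ × ι => G p.2) 2) :
    inner ℂ (rp5l G i x) (rp5l G j y) = if i = j then inner ℂ x y else (0 : ℂ) := by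
  rw [lp.inner_eq_tsum]
  split_ifs with h
  · subst h
    rw [lp.inner_eq_tsum, ← (rp5e_inj (ι := ι) i).tsum_eq]
    · apply tsum_congr
      rintro ⟨m, k⟩
      show inner ℂ (rp5f i (x : ∀ p : ℕ × ι, G p.2) (Nat.pair i m, k))
        (rp5f i (y : ∀ p : ℕ × ι, G p.2) (Nat.pair i m, k)) = _
      rw [rp5f_e, rp5f_e]
    · intro p hp
      by_contra hcon
      apply hp
      show inner ℂ (rp5f i (x : ∀ p : ℕ × ι, G p.2) p) (rp5f i (y : ∀ p : ℕ × ι, G p.2) p) = 0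
      unfold rp5f
      rw [if_neg (rp5_range i p hcon), inner_zero_left]
  · have : ∀ p, inner ℂ ((rp5l G i x : ∀ p : ℕ × ι, G p.2) p)
        ((rp5l G j y : ∀ p : ℕ × ι, G p.2) p) = 0 := by
      intro p
      rw [rp5l_apply, rp5l_apply]
      unfold rp5f
      by_cases hi : (Nat.unpair p.1).1 = i
      · rw [if_neg (c := (Nat.unpair p.1).1 = j) (fun hj => h (hi.symm.trans hj)),
          inner_zero_right]
      · rw [if_neg hi, inner_zero_left]
    simp only [this]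
    exact tsum_zero

theorem shift_lp {ι : Type} (G : ι → Type u)
    [∀ i, NormedAddCommGroup (G i)] [∀ i, InnerProductSpace ℂ (G i)] :
    ∃ v : ℕ → (lp (fun p : ℕ × ι => G p.2) 2 →L[ℂ] lp (fun p : ℕ × ι => G p.2) 2),
      (∀ i j x y, inner ℂ (v i x) (v j y) = if i = j then inner ℂ x y else (0 : ℂ)) ∧
      (∀ i m k x, v i x (Nat.pair i m, k) = x (m, k)) ∧
      (∀ i j m k x, i ≠ j → v i x (Nat.pair j m, k) = 0) := by
  refine ⟨fun i => ((rp5l G i).isometryOfInner (fun x y => by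
    rw [rp5l_inner, if_pos rfl])).toContinuousLinearMap, ?_, ?_, ?_⟩
  · intro i j x y
    exact rp5l_inner G i j x y
  · intro i m k x
    exact rp5f_e i _ m k
  · intro i j m k x h
    exact rp5f_ne i j _ m k h

end Pool.Agent.Helper509.RP
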