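import Pool.Agent.Helper509.RP.RepOne
import Pool.Agent.Helper509.RP.Dsum
import Pool.Agent.Helper509.RP.Sep
import Pool.Agent.Helper509.RP.Shift

universe u

open Filter Topology
open scoped ComplexOrder

namespace Pool.Agent.Helper509.RP

/-! PROOF IN WORDS.
Let a_j be a dense sequence in A (TopologicalSpace.denseSeq), (G j, π j) from exists_rep_one (a_j)
(choose). H = lp (fun p : ℕ × ℕ => G p.2) 2 (complete, separable by sep_lp),
π from dsum applied to the family p ↦ π p.2, v from shift_lp. ‖π a‖ ≤ ‖a‖ always, and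
‖π a‖ ≥ ‖π_j a‖ for each j (embed G j by lp.single at (0, j)), so ‖π a_j‖ = ‖a_j‖; as π is
continuous and the norm is continuous, ‖π a‖ = ‖a‖ for all a, so π is an isometry
(AddMonoidHomClass.isometry_of_norm or similar). Commutation: compare coordinates (n, k) with
n = Nat.pair j m: both sides are π_k a (x (m,k)) if j = i, and 0 otherwise.
-/

theorem exists_rep_aux {A : Type u} [CStarAlgebra A] [TopologicalSpace.SeparableSpace A]
    [Nontrivial A] (G : ℕ → Type u) [∀ i, NormedAddCommGroup (G i)]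
    [∀ i, InnerProductSpace ℂ (G i)] [∀ i, CompleteSpace (G i)]
    [∀ i, TopologicalSpace.SeparableSpace (G i)] (π : ∀ j, A →⋆ₐ[ℂ] (G j →L[ℂ] G j))
    (hπ : ∀ j, ‖π j (TopologicalSpace.denseSeq A j)‖ = ‖TopologicalSpace.denseSeq A j‖) :
    ∃ (H : Type u) (_ : NormedAddCommGroup H) (_ : InnerProductSpace ℂ H) (_ : CompleteSpace H)
      (_ : TopologicalSpace.SeparableSpace H) (π : A →⋆ₐ[ℂ] (H →L[ℂ] H)) (v : ℕ → (H →L[ℂ] H)),
      Isometry π ∧
      (∀ i j (x y : H), inner ℂ (v i x) (v j y) = if i = j then inner ℂ x y else (0 : ℂ)) ∧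
      ∀ i a, v i * π a = π a * v i := by
  obtain ⟨Φ, hΦ⟩ := dsum (fun p : ℕ × ℕ => G p.2) (fun p => π p.2)
  obtain ⟨v, hv1, hv2, hv3⟩ := shift_lp G
  refine ⟨lp (fun p : ℕ × ℕ => G p.2) 2, inferInstance, inferInstance, inferInstance,
    sep_lp (fun p : ℕ × ℕ => G p.2), Φ, v, ?_, hv1, ?_⟩
  · have up : ∀ a, ‖Φ a‖ ≤ ‖a‖ := fun a => NonUnitalStarAlgHom.norm_apply_le Φ a
    have lo : ∀ j a, ‖π j a‖ ≤ ‖Φ a‖ := by
      intro j a
      refine ContinuousLinearMap.opNorm_le_bound _ (norm_nonneg _) fun x => ?_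
      have h1 : (Φ a (lp.single 2 (0, j) x)) (0, j) = π j a x := by
        rw [hΦ]
        congr 1
        exact lp.single_apply_self (E := fun p : ℕ × ℕ => G p.2) 2 (0, j) x
      calc ‖π j a x‖ = ‖(Φ a (lp.single 2 (0, j) x)) (0, j)‖ := by rw [h1]
        _ ≤ ‖Φ a (lp.single (E := fun p : ℕ × ℕ => G p.2) 2 (0, j) x)‖ :=
            lp.norm_apply_le_norm (by norm_num) _ _
        _ ≤ ‖Φ a‖ * ‖lp.single (E := fun p : ℕ × ℕ => G p.2) 2 (0, j) x‖ :=
            (Φ a).le_opNorm _
        _ = ‖Φ a‖ * ‖x‖ := by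
            rw [lp.norm_single (by norm_num)]
    have hc : Continuous Φ := by
      refine AddMonoidHomClass.continuous_of_bound Φ 1 fun a => ?_
      rw [one_mul]; exact up a
    have he : (fun a => ‖Φ a‖) = fun a : A => ‖a‖ := by
      refine DenseRange.equalizer (TopologicalSpace.denseRange_denseSeq A) hc.norm
        continuous_norm ?_
      funext j
      simp only [Function.comp_apply]
      refine le_antisymm (up _) ?_
      rw [← hπ j]
      exact lo j _
    exact AddMonoidHomClass.isometry_of_norm Φ fun a => congrFun he a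
  · intro i a
    ext1 x
    refine lp.ext ?_
    funext ⟨n, k⟩
    obtain ⟨j, m, rfl⟩ : ∃ j m, n = Nat.pair j m := ⟨_, _, (Nat.pair_unpair n).symm⟩
    simp only [ContinuousLinearMap.mul_apply]
    by_cases h : i = j
    · subst h
      rw [hv2, hΦ, hΦ, hv2]
    · rw [hv3 i j m k _ h, hΦ, hv3 i j m k _ h, map_zero]

theorem exists_rep {A : Type u} [CStarAlgebra A] [TopologicalSpace.SeparableSpace A]
    [Nontrivial A] :
    ∃ (H : Type u) (_ : NormedAddCommGroup H) (_ : InnerProductSpace ℂ H) (_ : CompleteSpace H)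
      (_ : TopologicalSpace.SeparableSpace H) (π : A →⋆ₐ[ℂ] (H →L[ℂ] H)) (v : ℕ → (H →L[ℂ] H)),
      Isometry π ∧
      (∀ i j (x y : H), inner ℂ (v i x) (v j y) = if i = j then inner ℂ x y else (0 : ℂ)) ∧
      ∀ i a, v i * π a = π a * v i := by
  choose G i1 i2 i3 i4 π hπ using fun j : ℕ => exists_rep_one (TopologicalSpace.denseSeq A j)
  exact exists_rep_aux G π hπ

end Pool.Agent.Helper509.RP
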