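import Pool.Agent.Helper509.RP.State

universe u

open Filter Topology
open scoped ComplexOrder

namespace Pool.Agent.Helper509.RP

lemma rep_sq {x y : ℝ} (hx : 0 ≤ x) (hy : 0 ≤ y) (h : ((x : ℂ)) ^ 2 = ((y ^ 2 : ℝ) : ℂ)) :
    x = y := by
  have h1 : x ^ 2 = y ^ 2 := by exact_mod_cast h
  exact (sq_eq_sq₀ hx hy).1 h1

theorem exists_rep_one {A : Type u} [CStarAlgebra A] [TopologicalSpace.SeparableSpace A]
    [Nontrivial A] (a : A) :
    ∃ (G : Type u) (_ : NormedAddCommGroup G) (_ : InnerProductSpace ℂ G) (_ : CompleteSpace G)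
      (_ : TopologicalSpace.SeparableSpace G) (π : A →⋆ₐ[ℂ] (G →L[ℂ] G)), ‖π a‖ = ‖a‖ := by
  letI : PartialOrder A := CStarAlgebra.spectralOrder A
  haveI : StarOrderedRing A := CStarAlgebra.spectralOrderedRing A
  obtain ⟨f, hf1, hfa⟩ := exists_state a
  have hΩ : ‖f.toPreGNS 1‖ = 1 := by
    refine rep_sq (norm_nonneg _) zero_le_one ?_
    rw [f.preGNS_norm_sq]
    simp [hf1]
  have ha : ‖f.toPreGNS a‖ = ‖a‖ := by
    refine rep_sq (norm_nonneg _) (norm_nonneg _) ?_
    rw [f.preGNS_norm_sq]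
    simpa using hfa
  have hbd : ∀ x : A, ‖f.toPreGNS x‖ ≤ 1 * ‖x‖ := by
    intro x
    have h1 : f.toPreGNS x = f.leftMulMapPreGNS x (f.toPreGNS 1) := by simp
    have h2 : ‖f.leftMulMapPreGNS x‖ ≤ ‖x‖ := LinearMap.mkContinuous_norm_le _ (norm_nonneg _) _
    rw [h1]
    refine ((f.leftMulMapPreGNS x).le_opNorm _).trans ?_
    rw [hΩ, mul_one, one_mul]
    exact h2
  have hcont : Continuous fun x : A => f.toPreGNS x :=
    AddMonoidHomClass.continuous_of_bound (f.toPreGNS) 1 hbd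
  have hsep : TopologicalSpace.SeparableSpace f.GNS := by
    have h1 : DenseRange fun x : A => ((f.toPreGNS x : f.PreGNS) : f.GNS) :=
      UniformSpace.Completion.denseRange_coe.comp f.toPreGNS.surjective.denseRange
        (UniformSpace.Completion.continuous_coe _)
    exact h1.separableSpace ((UniformSpace.Completion.continuous_coe _).comp hcont)
  refine ⟨f.GNS, inferInstance, inferInstance, inferInstance, hsep, f.gnsStarAlgHom, ?_⟩
  apply le_antisymm
  · exact NonUnitalStarAlgHom.norm_apply_le f.gnsStarAlgHom a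
  · have h1 : f.gnsStarAlgHom a ((f.toPreGNS 1 : f.PreGNS) : f.GNS) =
        ((f.toPreGNS a : f.PreGNS) : f.GNS) := by
      simp
    have h2 := (f.gnsStarAlgHom a).le_opNorm ((f.toPreGNS 1 : f.PreGNS) : f.GNS)
    rw [h1, UniformSpace.Completion.norm_coe, UniformSpace.Completion.norm_coe, hΩ, mul_one, ha] at h2
    exact h2

end Pool.Agent.Helper509.RP
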