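import Mathlib

universe u

open Filter Topology
open scoped ComplexOrder

namespace Pool.Agent.Helper509.RP

theorem state_aux_ext {A : Type u} [CStarAlgebra A] [PartialOrder A] [StarOrderedRing A]
    [Nontrivial A] (x : A) (hx : 0 ≤ x) :
    ∃ g : A →L[ℂ] ℂ, ‖g‖ ≤ 1 ∧ g 1 = 1 ∧ g x = ((‖x‖ : ℝ) : ℂ) := by
  have hsa : IsSelfAdjoint x := .of_nonneg hx
  have : IsStarNormal x := hsa.isStarNormal
  have h1 : ‖x‖ ∈ spectrum ℝ x := CStarAlgebra.norm_mem_spectrum_of_nonneg hx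
  have h2 : ((‖x‖ : ℝ) : ℂ) ∈ spectrum ℂ x := by
    have := spectrum.algebraMap_mem ℂ h1
    simpa using this
  let S := StarAlgebra.elemental ℂ x
  have hcl : IsClosed (S : Set A) := StarAlgebra.elemental.isClosed ℂ x
  let y : S := ⟨x, StarAlgebra.elemental.self_mem ℂ x⟩
  have h3 : ((‖x‖ : ℝ) : ℂ) ∈ spectrum ℂ y := by
    rw [StarSubalgebra.mem_spectrum_iff]
    exact h2
  obtain ⟨φ, hφ⟩ := WeakDual.CharacterSpace.mem_spectrum_iff_exists.mp h3
  let p : Subspace ℂ A := Subalgebra.toSubmodule S.toSubalgebra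
  let f0 : p →ₗ[ℂ] ℂ :=
    { toFun := fun z => φ ⟨z.1, z.2⟩
      map_add' := fun z w => map_add φ (⟨z.1, z.2⟩ : S) ⟨w.1, w.2⟩
      map_smul' := fun c z => map_smul φ c (⟨z.1, z.2⟩ : S) }
  have hb : ∀ z : p, ‖f0 z‖ ≤ 1 * ‖z‖ := by
    intro z
    rw [one_mul]
    exact AlgHom.norm_apply_le_self φ (⟨z.1, z.2⟩ : S)
  let f1 : StrongDual ℂ p := f0.mkContinuous 1 hb
  obtain ⟨g, hg1, hg2⟩ := exists_extension_norm_eq p f1
  refine ⟨g, ?_, ?_, ?_⟩
  · rw [hg2]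
    exact LinearMap.mkContinuous_norm_le _ zero_le_one hb
  · have h4 : (1 : A) ∈ p := one_mem S
    have h5 := hg1 ⟨1, h4⟩
    have h6 : f1 ⟨1, h4⟩ = φ 1 := rfl
    have h7 : φ 1 = 1 := map_one φ
    rw [h6, h7] at h5
    exact h5
  · have h4 : x ∈ p := StarAlgebra.elemental.self_mem ℂ x
    have h5 := hg1 ⟨x, h4⟩
    have h6 : f1 ⟨x, h4⟩ = φ y := rfl
    rw [h6, hφ] at h5
    exact h5

theorem state_aux_im {A : Type u} [CStarAlgebra A] [PartialOrder A] [StarOrderedRing A]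
    [Nontrivial A] (g : A →L[ℂ] ℂ) (hg : ‖g‖ ≤ 1) (hg1 : g 1 = 1) (y : A) (hy : IsSelfAdjoint y) :
    (g y).im = 0 := by
  have key : ∀ t : ℝ, ((g y).im + t) ^ 2 ≤ ‖y‖ ^ 2 + t ^ 2 := by
    intro t
    let w : A := y + (t * Complex.I : ℂ) • 1
    have hw : g w = g y + t * Complex.I := by
      simp [w, hg1]
    have h1 : ‖g w‖ ≤ ‖w‖ := by
      calc ‖g w‖ ≤ ‖g‖ * ‖w‖ := g.le_opNorm w
        _ ≤ 1 * ‖w‖ := by gcongr
        _ = ‖w‖ := one_mul _
    have h2 : star w * w = y * y + ((t ^ 2 : ℝ) : ℂ) • 1 := by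
      simp only [w, star_add, star_smul, star_one, hy.star_eq]
      simp only [add_mul, mul_add, smul_mul_assoc, mul_smul_comm, one_mul, mul_one]
      have : star ((t : ℂ) * Complex.I) = -((t : ℂ) * Complex.I) := by
        simp
      have h4 : ((t : ℂ) * Complex.I) * (-((t : ℂ) * Complex.I)) = ((t ^ 2 : ℝ) : ℂ) := by
        push_cast
        linear_combination -(t:ℂ) ^ 2 * Complex.I_sq
      rw [this, smul_add, smul_smul, h4]
      simp only [neg_smul]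
      abel
    have h3 : ‖w‖ ^ 2 ≤ ‖y‖ ^ 2 + t ^ 2 := by
      rw [pow_two, ← CStarRing.norm_star_mul_self, h2]
      refine (norm_add_le _ _).trans ?_
      rw [norm_smul, norm_one, mul_one, Complex.norm_real, Real.norm_of_nonneg (sq_nonneg t)]
      have := norm_mul_le y y
      nlinarith
    have h4 : ((g y).im + t) ^ 2 ≤ ‖g w‖ ^ 2 := by
      have h5 : (g w).im = (g y).im + t := by
        rw [hw]; simp
      rw [← h5]
      have := Complex.abs_im_le_norm (g w)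
      exact sq_le_sq' (by linarith [neg_abs_le (g w).im]) ((le_abs_self _).trans this)
    have h6 : ‖g w‖ ^ 2 ≤ ‖w‖ ^ 2 := by gcongr
    linarith
  by_contra hne
  have h1 := key ((‖y‖ ^ 2 + 1) / (2 * (g y).im))
  have h2 : 2 * (g y).im * ((‖y‖ ^ 2 + 1) / (2 * (g y).im)) = ‖y‖ ^ 2 + 1 := by
    field_simp
  nlinarith [sq_nonneg (g y).im]

theorem exists_state {A : Type u} [CStarAlgebra A] [PartialOrder A] [StarOrderedRing A]
    [Nontrivial A] (a : A) :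
    ∃ f : A →ₚ[ℂ] ℂ, f 1 = 1 ∧ f (star a * a) = ((‖a‖ ^ 2 : ℝ) : ℂ) := by
  obtain ⟨g, hg, hg1, hgx⟩ := state_aux_ext (star a * a) (star_mul_self_nonneg a)
  have hpos : ∀ y : A, 0 ≤ y → 0 ≤ g.toLinearMap y := by
    intro y hy
    have him := state_aux_im g hg hg1 y (.of_nonneg hy)
    have h1 : ‖algebraMap ℝ A ‖y‖ - y‖ ≤ ‖y‖ := by
      have h2 : 0 ≤ algebraMap ℝ A ‖y‖ - y := by
        rw [sub_nonneg]
        exact IsSelfAdjoint.le_algebraMap_norm_self (.of_nonneg hy)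
      rw [CStarAlgebra.norm_le_iff_le_algebraMap _ (norm_nonneg y) h2]
      exact sub_le_self _ hy
    have h3 : g (algebraMap ℝ A ‖y‖ - y) = (‖y‖ : ℂ) - g y := by
      have e : algebraMap ℝ A ‖y‖ = ((‖y‖ : ℝ) : ℂ) • (1 : A) := by
        rw [Algebra.algebraMap_eq_smul_one]
        simp
      rw [map_sub, e, map_smul, hg1]
      simp
    have h4 : ‖(‖y‖ : ℂ) - g y‖ ≤ ‖y‖ := by
      rw [← h3]
      calc ‖g (algebraMap ℝ A ‖y‖ - y)‖ ≤ ‖g‖ * ‖algebraMap ℝ A ‖y‖ - y‖ := g.le_opNorm _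
        _ ≤ 1 * ‖y‖ := by gcongr
        _ = ‖y‖ := one_mul _
    have h5 := Complex.abs_re_le_norm ((‖y‖ : ℂ) - g y)
    simp only [Complex.sub_re, Complex.ofReal_re] at h5
    have h6 := (le_abs_self (‖y‖ - (g y).re)).trans (h5.trans h4)
    show 0 ≤ g y
    rw [Complex.nonneg_iff]
    exact ⟨by linarith, him.symm⟩
  refine ⟨PositiveLinearMap.mk₀ g.toLinearMap hpos, hg1, ?_⟩
  show g (star a * a) = _
  rw [hgx, CStarRing.norm_star_mul_self]
  push_cast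
  ring

end Pool.Agent.Helper509.RP
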